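import Mathlib
import Pool.Agent.H88.MultSeqDefs
import Pool.Agent.H88.MultSeq

/-!
# Q1: an infinite family of simple sets with pairwise different multiplier sequence sets whose
union is a proper subset of the classical multiplier sequences
-/

namespace Pool.Agent.Results.MP_5f9057_an.InfiniteFamily

open Polynomial Pool.Agent.H88.MultSeq

/-- **Q1, answered affirmatively.** There is an infinite collection of simple sets
`Q_0, Q_1, …` with (i) `(Q_j)_MS △ (Q_i)_MS ≠ ∅` for `i ≠ j` and (ii) the union of all the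
`(Q_j)_MS` a proper subset of the set of classical multiplier sequences.
(The witness is `Q_j = P_{j+1}`.) -/
theorem result : ∃ Q : ℕ → ℕ → ℝ[X], (∀ j, IsSimpleSet (Q j)) ∧
    (∀ i j, i ≠ j → (symmDiff (MS (Q j)) (MS (Q i))).Nonempty) ∧
    (⋃ j, MS (Q j)) ⊂ classicalMS := by
  refine ⟨fun j => P (j + 1), fun j => isSimpleSet_P _, ?_, ?_⟩
  · intro i j hij
    rcases Nat.lt_or_gt_of_ne hij with h | h
    · obtain ⟨γ, h1, h2⟩ := P_distinct_of_lt (i := i + 1) (j := j + 1) (by omega) (by omega)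
      exact ⟨γ, Or.inr ⟨h1, h2⟩⟩
    · obtain ⟨γ, h1, h2⟩ := P_distinct_of_lt (i := j + 1) (j := i + 1) (by omega) (by omega)
      exact ⟨γ, Or.inl ⟨h1, h2⟩⟩
  · rw [Set.ssubset_iff_of_subset (Set.iUnion_subset fun j => MS_subset_classical (isSimpleSet_P _))]
    refine ⟨fun k => (2 : ℝ) ^ k, two_pow_mem_classical, ?_⟩
    rw [Set.mem_iUnion]
    rintro ⟨j, hj⟩
    exact two_pow_not_mem (by omega) hj

end Pool.Agent.Results.MP_5f9057_an.InfiniteFamily
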