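import Mathlib
import Pool.Agent.H88.MultSeqDefs
import Pool.Agent.H88.MultSeq

/-!
# Q2: the multiplier sequence sets of the bases `P_j` are pairwise different
-/

namespace Pool.Agent.Results.MP_5f9057_an.PjDistinct

open Polynomial Pool.Agent.H88.MultSeq

/-- **Q2, answered affirmatively.** The sets `(P_j)_MS`, `j ≥ 1`, are pairwise different. -/
theorem result (i j : ℕ) (hi : 1 ≤ i) (hj : 1 ≤ j) (hij : i ≠ j) : MS (P i) ≠ MS (P j) := by
  rcases Nat.lt_or_gt_of_ne hij with h | h
  · obtain ⟨γ, h1, h2⟩ := P_distinct_of_lt hi h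
    exact fun e => h2 (e ▸ h1)
  · obtain ⟨γ, h1, h2⟩ := P_distinct_of_lt hj h
    exact fun e => h2 (e ▸ h1)

end Pool.Agent.Results.MP_5f9057_an.PjDistinct
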